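import Pool.Agent.PQP.StmtsE
import Pool.Agent.Helper18_FLX.Moa

/-!
# Squad PQP, row MOW (helper68)
-/

set_option autoImplicit false

open scoped InnerProductSpace Topology
open MeasureTheory Filter Set

noncomputable section

namespace Pool.Agent.PQP.H68

open Pool.Agent.Helper42_Paneitz Pool.Agent.Helper82_Vir Pool.Agent.FLX

theorem norm_w (w : S4) : ‖(w : E5)‖ = 1 := by
  have := w.2
  rwa [mem_sphere_zero_iff_norm] at this

/-- row MOW -/
theorem mow : MowStmt := by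
  intro w y l hl0 hl1
  set s : ℝ := ⟪(w : E5), (y : E5)⟫_ℝ with hs
  have hw := norm_w w
  have hb : ‖l • (w : E5)‖ < 1 := by
    rw [norm_smul, hw, mul_one, Real.norm_eq_abs, abs_of_nonneg hl0]
    exact hl1
  have hbs : ⟪l • (w : E5), (y : E5)⟫_ℝ = l * s := by
    rw [inner_smul_left]
    rfl
  have hpos : 0 < 1 + l * s := by
    have h := Pool.Agent.FLX.H18.u_pos hb y
    rwa [hbs] at h
  have hsq : FLX.sq (l • (w : E5)) = √(1 - l ^ 2) := by
    unfold FLX.sq
    rw [norm_smul, hw, mul_one, Real.norm_eq_abs, sq_abs]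
  set σ : ℝ := √(1 - l ^ 2) with hσ
  have hσ0 : 0 ≤ σ := Real.sqrt_nonneg _
  have hσ2 : σ ^ 2 = 1 - l ^ 2 := Real.sq_sqrt (by nlinarith)
  have hww : ⟪(w : E5), (w : E5)⟫_ℝ = 1 := by
    rw [real_inner_self_eq_norm_sq, hw]
    norm_num
  have hmz : ⟪(w : E5), (mob (l • (w : E5)) y : E5)⟫_ℝ = (l + s) / (1 + l * s) := by
    rw [Pool.Agent.FLX.H18.mob_coe hb, Pool.Agent.FLX.H18.inner_mobE, hbs, hsq, inner_smul_right,
      hww, mul_one]
    have h1 : (1 : ℝ) + σ ≠ 0 := by positivity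
    rw [eq_div_iff hpos.ne', inv_mul_eq_div, div_mul_cancel₀ _ hpos.ne']
    field_simp
    rw [← hs]
    linear_combination s * hσ2
  refine ⟨hb, hpos, hmz, fun e he => ?_, ?_⟩
  · have he' : ⟪e, (w : E5)⟫_ℝ = 0 := by rw [real_inner_comm]; exact he
    rw [Pool.Agent.FLX.H18.mob_coe hb, Pool.Agent.FLX.H18.inner_mobE, hbs, hsq, inner_smul_right,
      he', mul_zero, mul_zero, add_zero, inv_mul_eq_div]
  · have h1 := norm_sub_sq_real (mob (l • (w : E5)) y : E5) (w : E5)
    rw [h1, norm_w, hw, real_inner_comm, hmz]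
    field_simp
    ring

end Pool.Agent.PQP.H68
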