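import Pool.Agent.PQP.StmtsE
import Pool.Agent.Helper54_FLX.All

/-!
# Squad PQP, row SBK (helper68)
-/

set_option autoImplicit false

open scoped InnerProductSpace Topology
open MeasureTheory Filter Set

noncomputable section

namespace Pool.Agent.PQP.H68

open Pool.Agent.Helper42_Paneitz Pool.Agent.Helper82_Vir Pool.Agent.FLX

/-- row SBK, from KER -/
theorem sbk_of (hker : KerStmt) : SbkStmt := by
  obtain ⟨hell, -, CK, hCK, hK, -⟩ := hker
  have hm := msig_pos
  refine ⟨(1 + CK / msig) / (6 * msig) + 1 / msig, by positivity, fun f B hf hB => ?_⟩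
  -- a bound of `f`
  obtain ⟨M, hM⟩ : ∃ M : ℝ, ∀ y, ‖f y‖ ≤ M := by
    obtain ⟨M, hM⟩ := (isCompact_range hf).isBounded.exists_norm_le
    exact ⟨M, fun y => hM _ (Set.mem_range_self y)⟩
  have hfi : Integrable f sig := by
    refine Integrable.of_bound hf.aestronglyMeasurable M (Eventually.of_forall hM)
  have hfa : Integrable (fun y => |f y|) sig := hfi.abs
  have hea : ∀ x, Integrable (fun y => |ell x y|) sig := fun x => (hell x).abs
  have hef : ∀ x, Integrable (fun y => ell x y * f y) sig := fun x =>
    (hell x).mul_bdd (c := M) hf.aestronglyMeasurable (Eventually.of_forall hM)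
  have heaf : ∀ x, Integrable (fun y => |ell x y| * |f y|) sig := fun x => by
    have := (hef x).abs
    simpa only [abs_mul] using this
  -- the parts
  have hsplit : ∀ x, ∫ y, (1 + |ell x y|) * |f y| ∂sig =
      ∫ y, |f y| ∂sig + ∫ y, |ell x y| * |f y| ∂sig := by
    intro x
    rw [← integral_add hfa (heaf x)]
    refine integral_congr_ae (Eventually.of_forall fun y => ?_)
    simp only
    ring
  have hpos1 : 0 ≤ ∫ y, |f y| ∂sig := integral_nonneg fun y => abs_nonneg _
  have hpos2 : ∀ x, 0 ≤ ∫ y, |ell x y| * |f y| ∂sig := fun x =>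
    integral_nonneg fun y => mul_nonneg (abs_nonneg _) (abs_nonneg _)
  have hx0 : Nonempty S4 := by
    by_contra hcon
    rw [not_nonempty_iff] at hcon
    have h1 : sig = 0 := Measure.eq_zero_of_isEmpty sig
    exact sig_ne_zero h1
  obtain ⟨x0⟩ := hx0
  have hF : ∫ y, |f y| ∂sig ≤ B := by
    have h1 := hB x0
    rw [hsplit] at h1
    linarith [hpos2 x0]
  have hE : ∀ x, ∫ y, |ell x y| * |f y| ∂sig ≤ B := by
    intro x
    have h1 := hB x
    rw [hsplit] at h1
    linarith
  have hB0 : 0 ≤ B := hpos1.trans hF
  have habs : |∫ y, f y ∂sig| ≤ B := (abs_integral_le_integral_abs).trans hF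
  have havg : |avg f| ≤ B / msig := by
    unfold avg
    rw [abs_div, abs_of_pos hm]
    exact div_le_div_of_nonneg_right habs hm.le
  refine ⟨fun x => ?_, ?_, ?_⟩
  · unfold K
    have h1 : ∫ y, ell x y * (f y - avg f) ∂sig =
        ∫ y, ell x y * f y ∂sig - avg f * ∫ y, ell x y ∂sig := by
      rw [← integral_const_mul, ← integral_sub (hef x) ((hell x).const_mul _)]
      refine integral_congr_ae (Eventually.of_forall fun y => ?_)
      simp only
      ring
    have h2 : |∫ y, ell x y * f y ∂sig| ≤ B := by
      refine (abs_integral_le_integral_abs).trans ?_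
      simp only [abs_mul]
      exact hE x
    have h3 : |∫ y, ell x y ∂sig| ≤ CK := (abs_integral_le_integral_abs).trans (hK x)
    have h4 : |avg f * ∫ y, ell x y ∂sig| ≤ B / msig * CK := by
      rw [abs_mul]
      exact mul_le_mul havg h3 (abs_nonneg _) (by positivity)
    rw [h1, abs_div, abs_of_pos (by positivity : 0 < 6 * msig)]
    have h5 : |∫ y, ell x y * f y ∂sig - avg f * ∫ y, ell x y ∂sig| ≤ B + B / msig * CK := by
      refine (abs_sub _ _).trans ?_
      linarith
    refine (div_le_div_of_nonneg_right h5 (by positivity : 0 ≤ 6 * msig)).trans ?_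
    have h6 : (B + B / msig * CK) / (6 * msig) = (1 + CK / msig) / (6 * msig) * B := by
      field_simp
    rw [h6, add_mul]
    have h7 : 0 ≤ 1 / msig * B := by positivity
    linarith
  · refine havg.trans ?_
    have h6 : B / msig = 1 / msig * B := by ring
    have h7 : 0 ≤ (1 + CK / msig) / (6 * msig) * B := by positivity
    rw [h6, add_mul]
    linarith
  · refine (norm_integral_le_integral_norm _).trans ?_
    refine le_trans (le_of_eq ?_) hF
    refine integral_congr_ae (Eventually.of_forall fun y => ?_)
    have hy : ‖(y : E5)‖ = 1 := by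
      have := y.2
      rwa [mem_sphere_zero_iff_norm] at this
    show ‖f y • (y : E5)‖ = |f y|
    rw [norm_smul, hy, mul_one, Real.norm_eq_abs]

/-- row SBK -/
theorem sbk : SbkStmt := sbk_of (H83.ker H54.pow_all)

end Pool.Agent.PQP.H68
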